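import Pool.Agent.E8helper48.RR.Stm2
import Pool.Agent.E8helper73.RR.Mono

/-!
# RR, piece ALT: three consecutive terms alternating around the equilibrium
-/

set_option autoImplicit false

namespace Pool.Agent.E8helper67.RR

open Filter Topology RR48

/-! ### limits along ultrafilters -/

/-- limits of a bounded sequence along an ultrafilter -/
theorem ultra {b : ℕ → ℝ} {L K : ℝ} (hb : ∀ n, b n ∈ Set.Icc L K) (U : Ultrafilter ℕ)
    (hU : (U : Filter ℕ) ≤ atTop) (j : ℕ) :
    ∃ β, Tendsto (fun k => b (k + j)) U (𝓝 β) ∧ liminf b atTop ≤ β ∧ β ≤ limsup b atTop := by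
  have hbU : atTop.IsBoundedUnder (· ≤ ·) b := isBoundedUnder_of ⟨K, fun n => (hb n).2⟩
  have hbL : atTop.IsBoundedUnder (· ≥ ·) b := isBoundedUnder_of ⟨L, fun n => (hb n).1⟩
  obtain ⟨β, -, hβ⟩ := (isCompact_Icc (a := L) (b := K)).ultrafilter_le_nhds'
    (U.map fun k => b (k + j)) (by
      rw [Ultrafilter.mem_map]
      exact Filter.univ_mem' fun k => hb (k + j))
  have hT : Tendsto (fun k => b (k + j)) U (𝓝 β) := hβ
  refine ⟨β, hT, ?_, ?_⟩
  · refine le_of_forall_pos_le_add fun ε hε => ?_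
    have h1 : ∀ᶠ n in atTop, liminf b atTop - ε < b n :=
      eventually_lt_of_lt_liminf (by linarith) hbL
    have h2 : ∀ᶠ k in (U : Filter ℕ), liminf b atTop - ε < b (k + j) :=
      hU ((tendsto_add_atTop_nat j).eventually h1)
    have h3 := ge_of_tendsto hT (h2.mono fun k hk => hk.le)
    linarith
  · refine le_of_forall_pos_le_add fun ε hε => ?_
    have h1 : ∀ᶠ n in atTop, b n < limsup b atTop + ε :=
      eventually_lt_of_limsup_lt (by linarith) hbU
    have h2 : ∀ᶠ k in (U : Filter ℕ), b (k + j) < limsup b atTop + ε :=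
      hU ((tendsto_add_atTop_nat j).eventually h1)
    exact le_of_tendsto hT (h2.mono fun k hk => hk.le)

/-- from points near `c` to an ultrafilter -/
theorem ultra_of_near {b : ℕ → ℝ} {c : ℝ} (hc : ∀ ε > 0, ∀ N, ∃ n ≥ N, |b n - c| < ε) (j : ℕ) :
    ∃ U : Ultrafilter ℕ, (U : Filter ℕ) ≤ atTop ∧ Tendsto (fun k => b (k + j)) U (𝓝 c) := by
  rw [← mapClusterPt_iff_ultrafilter, mapClusterPt_iff_frequently]
  intro s hs
  obtain ⟨ε, hε, hεs⟩ := Metric.mem_nhds_iff.1 hs
  rw [frequently_atTop]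
  intro N
  obtain ⟨n, hn, h1⟩ := hc ε hε (N + j)
  refine ⟨n - j, by omega, hεs ?_⟩
  rw [Nat.sub_add_cancel (by omega), Metric.mem_ball, Real.dist_eq]
  exact h1

theorem near_sup {b : ℕ → ℝ} {L K : ℝ} (hb : ∀ n, b n ∈ Set.Icc L K) :
    ∀ ε > 0, ∀ N, ∃ n ≥ N, |b n - limsup b atTop| < ε := by
  have hbU : atTop.IsBoundedUnder (· ≤ ·) b := isBoundedUnder_of ⟨K, fun n => (hb n).2⟩
  have hbL : atTop.IsBoundedUnder (· ≥ ·) b := isBoundedUnder_of ⟨L, fun n => (hb n).1⟩
  intro ε hε N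
  obtain ⟨N', hN'⟩ := eventually_atTop.1
    (eventually_lt_of_limsup_lt (show limsup b atTop < limsup b atTop + ε by linarith) hbU)
  have hf : ∃ᶠ n in atTop, limsup b atTop - ε < b n :=
    frequently_lt_of_lt_limsup hbL.isCoboundedUnder_le (by linarith)
  obtain ⟨n, hn, h1⟩ := frequently_atTop.1 hf (max N N')
  refine ⟨n, (le_max_left _ _).trans hn, ?_⟩
  have h2 := hN' n ((le_max_right _ _).trans hn)
  rw [abs_lt]
  constructor <;> linarith

theorem near_inf {b : ℕ → ℝ} {L K : ℝ} (hb : ∀ n, b n ∈ Set.Icc L K) :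
    ∀ ε > 0, ∀ N, ∃ n ≥ N, |b n - liminf b atTop| < ε := by
  have hbU : atTop.IsBoundedUnder (· ≤ ·) b := isBoundedUnder_of ⟨K, fun n => (hb n).2⟩
  have hbL : atTop.IsBoundedUnder (· ≥ ·) b := isBoundedUnder_of ⟨L, fun n => (hb n).1⟩
  intro ε hε N
  obtain ⟨N', hN'⟩ := eventually_atTop.1
    (eventually_lt_of_lt_liminf (show liminf b atTop - ε < liminf b atTop by linarith) hbL)
  have hf : ∃ᶠ n in atTop, b n < liminf b atTop + ε :=
    frequently_lt_of_liminf_lt hbU.isCoboundedUnder_ge (by linarith)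
  obtain ⟨n, hn, h1⟩ := frequently_atTop.1 hf (max N N')
  refine ⟨n, (le_max_left _ _).trans hn, ?_⟩
  have h2 := hN' n ((le_max_right _ _).trans hn)
  rw [abs_lt]
  constructor <;> linarith

/-- the equation in the limit, for the odd class -/
theorem limQ {al A B D L K c : ℝ} {P Q : ℕ → ℝ} (hP : ∀ n, P n ∈ Set.Icc L K)
    (hQ : ∀ n, Q n ∈ Set.Icc L K)
    (hstep : ∀ k, Q (k + 1) * (A + B * P (k + 1) + Q k + D * P k) = al + Q k)
    (hc : ∀ ε > 0, ∀ N, ∃ n ≥ N, |Q n - c| < ε) :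
    ∃ e g h : ℝ, (liminf Q atTop ≤ e ∧ e ≤ limsup Q atTop) ∧
      (liminf P atTop ≤ g ∧ g ≤ limsup P atTop) ∧ (liminf P atTop ≤ h ∧ h ≤ limsup P atTop) ∧
      c * (A + B * g + e + D * h) = al + e := by
  obtain ⟨U, hU, hT⟩ := ultra_of_near hc 1
  obtain ⟨e, he, he1, he2⟩ := ultra hQ U hU 0
  obtain ⟨g, hg, hg1, hg2⟩ := ultra hP U hU 1
  obtain ⟨h, hh, hh1, hh2⟩ := ultra hP U hU 0
  refine ⟨e, g, h, ⟨he1, he2⟩, ⟨hg1, hg2⟩, ⟨hh1, hh2⟩, ?_⟩
  have t1 : Tendsto (fun k => Q (k + 1) * (A + B * P (k + 1) + Q (k + 0) + D * P (k + 0))) U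
      (𝓝 (c * (A + B * g + e + D * h))) :=
    hT.mul (((tendsto_const_nhds.add (hg.const_mul B)).add he).add (hh.const_mul D))
  have t2 : Tendsto (fun k => al + Q (k + 0)) U (𝓝 (al + e)) := he.const_add al
  refine tendsto_nhds_unique t1 (t2.congr fun k => ?_)
  exact (hstep k).symm

/-- the equation in the limit, for the even class -/
theorem limP {al A B D L K c : ℝ} {P Q : ℕ → ℝ} (hP : ∀ n, P n ∈ Set.Icc L K)
    (hQ : ∀ n, Q n ∈ Set.Icc L K)
    (hstep : ∀ k, P (k + 2) * (A + B * Q (k + 1) + P (k + 1) + D * Q k) = al + P (k + 1))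
    (hc : ∀ ε > 0, ∀ N, ∃ n ≥ N, |P n - c| < ε) :
    ∃ e g h : ℝ, (liminf P atTop ≤ e ∧ e ≤ limsup P atTop) ∧
      (liminf Q atTop ≤ g ∧ g ≤ limsup Q atTop) ∧ (liminf Q atTop ≤ h ∧ h ≤ limsup Q atTop) ∧
      c * (A + B * g + e + D * h) = al + e := by
  obtain ⟨U, hU, hT⟩ := ultra_of_near hc 2
  obtain ⟨e, he, he1, he2⟩ := ultra hP U hU 1
  obtain ⟨g, hg, hg1, hg2⟩ := ultra hQ U hU 1
  obtain ⟨h, hh, hh1, hh2⟩ := ultra hQ U hU 0
  refine ⟨e, g, h, ⟨he1, he2⟩, ⟨hg1, hg2⟩, ⟨hh1, hh2⟩, ?_⟩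
  have t1 : Tendsto (fun k => P (k + 2) * (A + B * Q (k + 1) + P (k + 1) + D * Q (k + 0))) U
      (𝓝 (c * (A + B * g + e + D * h))) :=
    hT.mul (((tendsto_const_nhds.add (hg.const_mul B)).add he).add (hh.const_mul D))
  have t2 : Tendsto (fun k => al + P (k + 1)) U (𝓝 (al + e)) := he.const_add al
  refine tendsto_nhds_unique t1 (t2.congr fun k => ?_)
  exact (hstep k).symm

/-! ### algebra -/

theorem z_lt {al A E z : ℝ} (hal : 0 < al) (hE : 0 < E) (hA1 : A < 1)
    (h4 : 4 * al < (1 - A) ^ 2 * (E - 1)) (hz : 0 < z) (hze : z * (A + (E + 1) * z) = al + z) :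
    2 * z < 1 - A := by
  by_contra hcon
  push Not at hcon
  have h1 : z * (A + (E + 1) * z - 1) = al := by linarith
  have h2 : 0 < A + (E + 1) * z - 1 := by
    by_contra h
    push Not at h
    have := mul_nonpos_of_nonneg_of_nonpos hz.le h
    linarith
  -- `t = (1 - A) / 2 ≤ z`
  have h3 : (1 - A) / 2 * (A + (E + 1) * ((1 - A) / 2) - 1) ≤ al := by
    rcases le_or_gt (A + (E + 1) * ((1 - A) / 2) - 1) 0 with h | h
    · have := mul_nonpos_of_nonneg_of_nonpos (by linarith : 0 ≤ (1 - A) / 2) h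
      linarith
    · have e1 : (1 - A) / 2 ≤ z := by linarith
      have e2 : A + (E + 1) * ((1 - A) / 2) - 1 ≤ A + (E + 1) * z - 1 := by
        have := mul_le_mul_of_nonneg_left e1 (by linarith : 0 ≤ E + 1)
        linarith
      have e3 := mul_le_mul e1 e2 h.le hz.le
      linarith
  nlinarith [h3, h4]

theorem alg {al A E a b c d : ℝ} (hE : 1 < E) (hc0 : 0 < c) (hd : 0 ≤ d) (hdc : d ≤ c)
    (hcb : c < b) (hba : b ≤ a)
    (h1 : c * (A + E * b) ≤ al + (1 - c) * c) (h2 : al + (1 - d) * d ≤ d * (A + E * a))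
    (h3 : al + (1 - b) * b ≤ b * (A + E * c)) (h4 : a * (A + E * d) ≤ al + (1 - a) * a) :
    a = b ∧ c = d := by
  have e1 : 1 - A ≤ b + c := by
    by_contra h
    push Not at h
    have : 0 < (b - c) * (1 - A - (b + c)) := mul_pos (by linarith) (by linarith)
    nlinarith
  have e2 : a + d ≤ 1 - A := by
    by_contra h
    push Not at h
    have : 0 < (a - d) * (a + d - (1 - A)) := mul_pos (by linarith) (by linarith)
    nlinarith
  have e3 : (E - 1) * (b * c) ≤ al := by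
    have : 0 ≤ c * (b + c - (1 - A)) := mul_nonneg hc0.le (by linarith)
    nlinarith
  have e4 : al ≤ (E - 1) * (a * d) := by
    have : 0 ≤ d * (1 - A - (a + d)) := mul_nonneg hd (by linarith)
    nlinarith
  have e5 : b * c ≤ a * d := by
    have : (E - 1) * (b * c) ≤ (E - 1) * (a * d) := e3.trans e4
    exact le_of_mul_le_mul_left this (by linarith)
  have hs : a - b ≤ c - d := by linarith
  have e6 : (c - d) * b ≤ (a - b) * c := by
    have : 0 ≤ (a - b) * (c - d) := mul_nonneg (by linarith) (by linarith)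
    nlinarith
  have e7 : (a - b) * c ≤ (c - d) * c := mul_le_mul_of_nonneg_right hs hc0.le
  have e8 : (c - d) * (b - c) ≤ 0 := by linarith
  have e9 : c - d ≤ 0 := by
    by_contra h
    push Not at h
    have := mul_pos h (by linarith : 0 < b - c)
    linarith
  constructor <;> linarith

/-! ### the invariant box -/

theorem invBox {al A B D z ε : ℝ} {x : ℕ → ℝ} {n : ℕ} (hB : 0 ≤ B)
    (hD : 0 < D) (hE : 1 < B + D) (hx : IsSol al A B D x)
    (hze : z * (A + (B + D + 1) * z) = al + z) (hz2 : 2 * z < 1 - A)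
    (hε : 0 < ε) (hε1 : ε ≤ x n - z) (hε2 : ε ≤ z - x (n + 1)) (hε3 : ε ≤ x (n + 2) - z)
    (hε4 : (B + D - 1) * ε ≤ 1 - A - 2 * z) (hε5 : z + ε ≤ 1) (hεz : ε < z) :
    ∀ k, z + ε ≤ x (n + 2 * k) ∧ x (n + 1 + 2 * k) ≤ z - ε ∧ z + ε ≤ x (n + 2 + 2 * k) := by
  have q1 : (z + ε) * (A + (B + D) * (z - ε)) ≤ al + (1 - (z + ε)) * (z + ε) := by
    have i1 : 0 ≤ ε * (1 - A - 2 * z) := mul_nonneg hε.le (by linarith)
    have i2 : 0 ≤ (B + D - 1) * ε ^ 2 := mul_nonneg (by linarith) (sq_nonneg ε)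
    linarith [i1, i2, hze]
  have q2 : al + (1 - (z - ε)) * (z - ε) ≤ (z - ε) * (A + (B + D) * (z + ε)) := by
    have i1 : 0 ≤ ε * (1 - A - 2 * z - (B + D - 1) * ε) := mul_nonneg hε.le (by linarith)
    linarith [i1, hze]
  intro k
  induction k with
  | zero => exact ⟨by simpa using (by linarith : z + ε ≤ x n), by
      simpa using (by linarith : x (n + 1) ≤ z - ε), by
      simpa using (by linarith : z + ε ≤ x (n + 2))⟩
  | succ k ih =>
    obtain ⟨ih1, ih2, ih3⟩ := ih
    have eN1 : n + 2 * (k + 1) = n + 2 + 2 * k := by ring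
    have eN2 : n + 1 + 2 * (k + 1) = n + 2 * k + 3 := by ring
    have eN3 : n + 2 + 2 * (k + 1) = n + 1 + 2 * k + 3 := by ring
    have eM1 : n + 2 * k + 1 = n + 1 + 2 * k := by ring
    have eM2 : n + 2 * k + 2 = n + 2 + 2 * k := by ring
    have eM3 : n + 1 + 2 * k + 1 = n + 2 + 2 * k := by ring
    have eM4 : n + 1 + 2 * k + 2 = n + 2 * k + 3 := by ring
    have hV : x (n + 2 * k + 3) ≤ z - ε := by
      have hden := hx.den (n + 2 * k)
      rw [eM1, eM2] at hden
      rw [hx.step (n + 2 * k), eM1, eM2, div_le_iff₀ hden]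
      have j1 : (B + D) * (z + ε) ≤ B * x (n + 2 + 2 * k) + D * x (n + 2 * k) := by
        have := mul_le_mul_of_nonneg_left ih3 hB
        have := mul_le_mul_of_nonneg_left ih1 hD.le
        linarith
      have j2 : (z - ε) * ((B + D) * (z + ε)) ≤
          (z - ε) * (B * x (n + 2 + 2 * k) + D * x (n + 2 * k)) :=
        mul_le_mul_of_nonneg_left j1 (by linarith)
      have j3 : (1 - (z - ε)) * x (n + 1 + 2 * k) ≤ (1 - (z - ε)) * (z - ε) :=
        mul_le_mul_of_nonneg_left ih2 (by linarith)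
      linarith [j2, j3, q2]
    have hU : z + ε ≤ x (n + 1 + 2 * k + 3) := by
      have hden := hx.den (n + 1 + 2 * k)
      rw [eM3, eM4] at hden
      rw [hx.step (n + 1 + 2 * k), eM3, eM4, le_div_iff₀ hden]
      have j1 : B * x (n + 2 * k + 3) + D * x (n + 1 + 2 * k) ≤ (B + D) * (z - ε) := by
        have := mul_le_mul_of_nonneg_left hV hB
        have := mul_le_mul_of_nonneg_left ih2 hD.le
        linarith
      have j2 : (z + ε) * (B * x (n + 2 * k + 3) + D * x (n + 1 + 2 * k)) ≤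
          (z + ε) * ((B + D) * (z - ε)) := mul_le_mul_of_nonneg_left j1 (by linarith)
      have j3 : (1 - (z + ε)) * (z + ε) ≤ (1 - (z + ε)) * x (n + 2 + 2 * k) :=
        mul_le_mul_of_nonneg_left ih3 (by linarith)
      linarith [j2, j3, q1]
    rw [eN1, eN2, eN3]
    exact ⟨ih3, hV, hU⟩

/-! ### the result -/

theorem t_ALT : S_ALT := by
  intro al A B D z x n hal hA hB hD hA1 h4 hx hz hze hx0 hx1 hx2
  have hsq : 0 < (1 - A) ^ 2 := pow_pos (by linarith) 2
  have hE : 1 < B + D := by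
    by_contra h
    push Not at h
    have : (1 - A) ^ 2 * (B + D - 1) ≤ 0 :=
      mul_nonpos_of_nonneg_of_nonpos hsq.le (by linarith)
    linarith
  have hz2 : 2 * z < 1 - A := z_lt hal (by linarith : 0 < B + D) hA1 h4 hz hze
  -- choice of `ε`
  obtain ⟨ε, hε, hε1, hε2, hε3, hε4, hε5, hεz⟩ : ∃ ε : ℝ, 0 < ε ∧ ε ≤ x n - z ∧
      ε ≤ z - x (n + 1) ∧ ε ≤ x (n + 2) - z ∧ (B + D - 1) * ε ≤ 1 - A - 2 * z ∧ z + ε ≤ 1 ∧
      ε < z := by
    refine ⟨min (x n - z) (min (z - x (n + 1)) (min (x (n + 2) - z)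
      (min ((1 - A - 2 * z) / (B + D - 1)) (min (z / 2) (1 - z))))), ?_, ?_, ?_, ?_, ?_, ?_, ?_⟩
    · refine lt_min (by linarith) (lt_min (by linarith) (lt_min (by linarith)
        (lt_min (div_pos (by linarith) (by linarith)) (lt_min (by linarith) (by linarith)))))
    · exact min_le_left _ _
    · exact (min_le_right _ _).trans (min_le_left _ _)
    · exact (min_le_right _ _).trans ((min_le_right _ _).trans (min_le_left _ _))
    · have : min (x n - z) (min (z - x (n + 1)) (min (x (n + 2) - z)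
        (min ((1 - A - 2 * z) / (B + D - 1)) (min (z / 2) (1 - z))))) ≤
          (1 - A - 2 * z) / (B + D - 1) :=
        (min_le_right _ _).trans ((min_le_right _ _).trans
          ((min_le_right _ _).trans (min_le_left _ _)))
      have h' := mul_le_mul_of_nonneg_left this (by linarith : 0 ≤ B + D - 1)
      rwa [mul_div_cancel₀ _ (by linarith : B + D - 1 ≠ 0)] at h'
    · have : min (x n - z) (min (z - x (n + 1)) (min (x (n + 2) - z)
        (min ((1 - A - 2 * z) / (B + D - 1)) (min (z / 2) (1 - z))))) ≤ 1 - z :=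
        (min_le_right _ _).trans ((min_le_right _ _).trans
          ((min_le_right _ _).trans ((min_le_right _ _).trans (min_le_right _ _))))
      linarith
    · have : min (x n - z) (min (z - x (n + 1)) (min (x (n + 2) - z)
        (min ((1 - A - 2 * z) / (B + D - 1)) (min (z / 2) (1 - z))))) ≤ z / 2 :=
        (min_le_right _ _).trans ((min_le_right _ _).trans
          ((min_le_right _ _).trans ((min_le_right _ _).trans (min_le_left _ _))))
      linarith
  have hinv := invBox hB hD hE hx hze hz2 hε hε1 hε2 hε3 hε4 hε5 hεz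
  obtain ⟨L, K, hL, hLK⟩ := Pool.Agent.E8helper73.RR.bounds hal hA hB hD hx
  set P : ℕ → ℝ := fun k => x (n + 4 + 2 * k) with hPdef
  set Q : ℕ → ℝ := fun k => x (n + 5 + 2 * k) with hQdef
  have hP : ∀ k, P k ∈ Set.Icc L K := fun k => by
    have := hLK (n + 1 + 2 * k)
    rwa [show n + 1 + 2 * k + 3 = n + 4 + 2 * k by ring] at this
  have hQ : ∀ k, Q k ∈ Set.Icc L K := fun k => by
    have := hLK (n + 2 + 2 * k)
    rwa [show n + 2 + 2 * k + 3 = n + 5 + 2 * k by ring] at this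
  have hPl : ∀ k, z + ε ≤ P k := fun k => by
    have := (hinv (k + 2)).1
    rwa [show n + 2 * (k + 2) = n + 4 + 2 * k by ring] at this
  have hQl : ∀ k, Q k ≤ z - ε := fun k => by
    have := (hinv (k + 2)).2.1
    rwa [show n + 1 + 2 * (k + 2) = n + 5 + 2 * k by ring] at this
  have hstepQ : ∀ k, Q (k + 1) * (A + B * P (k + 1) + Q k + D * P k) = al + Q k := fun k => by
    have h1 := hx.step (n + 4 + 2 * k)
    have h2 := hx.den (n + 4 + 2 * k)
    rw [eq_div_iff h2.ne'] at h1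
    rw [show n + 4 + 2 * k + 3 = n + 5 + 2 * (k + 1) by ring,
      show n + 4 + 2 * k + 2 = n + 4 + 2 * (k + 1) by ring,
      show n + 4 + 2 * k + 1 = n + 5 + 2 * k by ring] at h1
    exact h1
  have hstepP : ∀ k, P (k + 2) * (A + B * Q (k + 1) + P (k + 1) + D * Q k) = al + P (k + 1) :=
    fun k => by
    have h1 := hx.step (n + 5 + 2 * k)
    have h2 := hx.den (n + 5 + 2 * k)
    rw [eq_div_iff h2.ne'] at h1
    rw [show n + 5 + 2 * k + 3 = n + 4 + 2 * (k + 2) by ring,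
      show n + 5 + 2 * k + 2 = n + 5 + 2 * (k + 1) by ring,
      show n + 5 + 2 * k + 1 = n + 4 + 2 * (k + 1) by ring] at h1
    exact h1
  have hPU : atTop.IsBoundedUnder (· ≤ ·) P := isBoundedUnder_of ⟨K, fun k => (hP k).2⟩
  have hPL : atTop.IsBoundedUnder (· ≥ ·) P := isBoundedUnder_of ⟨L, fun k => (hP k).1⟩
  have hQU : atTop.IsBoundedUnder (· ≤ ·) Q := isBoundedUnder_of ⟨K, fun k => (hQ k).2⟩
  have hQL : atTop.IsBoundedUnder (· ≥ ·) Q := isBoundedUnder_of ⟨L, fun k => (hQ k).1⟩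
  obtain ⟨e1, g1, i1, he1, hg1, hi1, eq1⟩ := limQ hP hQ hstepQ (near_sup hQ)
  obtain ⟨e2, g2, i2, he2, hg2, hi2, eq2⟩ := limQ hP hQ hstepQ (near_inf hQ)
  obtain ⟨e3, g3, i3, he3, hg3, hi3, eq3⟩ := limP hP hQ hstepP (near_inf hP)
  obtain ⟨e4, g4, i4, he4, hg4, hi4, eq4⟩ := limP hP hQ hstepP (near_sup hP)
  have hbP : z + ε ≤ liminf P atTop := le_liminf_of_le hPU.isCoboundedUnder_ge
    (Eventually.of_forall hPl)
  have hcQ : limsup Q atTop ≤ z - ε := limsup_le_of_le hQL.isCoboundedUnder_le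
    (Eventually.of_forall hQl)
  have hdL : L ≤ liminf Q atTop := le_liminf_of_le hQU.isCoboundedUnder_ge
    (Eventually.of_forall fun k => (hQ k).1)
  have hdc : liminf Q atTop ≤ limsup Q atTop := liminf_le_limsup hQU hQL
  have hba : liminf P atTop ≤ limsup P atTop := liminf_le_limsup hPU hPL
  set a := limsup P atTop with ha
  set b := liminf P atTop with hb
  set c := limsup Q atTop with hc
  set d := liminf Q atTop with hd
  have hc0 : 0 < c := by linarith
  have hd0 : 0 < d := by linarith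
  have hb0 : 0 < b := by linarith
  have ha0 : 0 < a := by linarith
  -- the four inequalities
  have f1 : c * (A + (B + D) * b) ≤ al + (1 - c) * c := by
    have k1 : B * b ≤ B * g1 := mul_le_mul_of_nonneg_left hg1.1 hB
    have k2 : D * b ≤ D * i1 := mul_le_mul_of_nonneg_left hi1.1 hD.le
    have k3 : c * (B * b + D * b) ≤ c * (B * g1 + D * i1) :=
      mul_le_mul_of_nonneg_left (by linarith) hc0.le
    have k4 : (1 - c) * e1 ≤ (1 - c) * c := mul_le_mul_of_nonneg_left he1.2 (by linarith)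
    linarith [k3, k4, eq1]
  have f2 : al + (1 - d) * d ≤ d * (A + (B + D) * a) := by
    have k1 : B * g2 ≤ B * a := mul_le_mul_of_nonneg_left hg2.2 hB
    have k2 : D * i2 ≤ D * a := mul_le_mul_of_nonneg_left hi2.2 hD.le
    have k3 : d * (B * g2 + D * i2) ≤ d * (B * a + D * a) :=
      mul_le_mul_of_nonneg_left (by linarith) hd0.le
    have k4 : (1 - d) * d ≤ (1 - d) * e2 := mul_le_mul_of_nonneg_left he2.1 (by linarith)
    linarith [k3, k4, eq2]
  have f4' : a * (A + (B + D) * d) ≤ al + (1 - a) * e4 := by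
    have k1 : B * d ≤ B * g4 := mul_le_mul_of_nonneg_left hg4.1 hB
    have k2 : D * d ≤ D * i4 := mul_le_mul_of_nonneg_left hi4.1 hD.le
    have k3 : a * (B * d + D * d) ≤ a * (B * g4 + D * i4) :=
      mul_le_mul_of_nonneg_left (by linarith) ha0.le
    linarith [k3, eq4]
  have ha1 : a ≤ 1 := by
    by_contra h
    push Not at h
    have k1 : (1 - a) * e4 < 0 := mul_neg_of_neg_of_pos (by linarith) (by linarith [he4.1])
    have k2 : 0 ≤ A * (a - d) := mul_nonneg hA (by linarith)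
    have k3 : 0 ≤ (1 - d) * d := mul_nonneg (by linarith) hd0.le
    linarith [k1, k2, k3, f2, f4']
  have f4 : a * (A + (B + D) * d) ≤ al + (1 - a) * a := by
    have k4 : (1 - a) * e4 ≤ (1 - a) * a := mul_le_mul_of_nonneg_left he4.2 (by linarith)
    linarith
  have f3 : al + (1 - b) * b ≤ b * (A + (B + D) * c) := by
    have k1 : B * g3 ≤ B * c := mul_le_mul_of_nonneg_left hg3.2 hB
    have k2 : D * i3 ≤ D * c := mul_le_mul_of_nonneg_left hi3.2 hD.le
    have k3 : b * (B * g3 + D * i3) ≤ b * (B * c + D * c) :=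
      mul_le_mul_of_nonneg_left (by linarith) hb0.le
    have k4 : (1 - b) * b ≤ (1 - b) * e3 := mul_le_mul_of_nonneg_left he3.1 (by linarith)
    linarith [k3, k4, eq3]
  obtain ⟨hab, hcd⟩ := alg hE hc0 hd0.le hdc (by linarith : c < b) hba f1 f2 f3 f4
  have tP : Tendsto P atTop (𝓝 b) :=
    tendsto_of_liminf_eq_limsup (by rw [← hb]) (by rw [← ha, hab]) hPU hPL
  have tQ : Tendsto Q atTop (𝓝 d) :=
    tendsto_of_liminf_eq_limsup (by rw [← hd]) (by rw [← hc, hcd]) hQU hQL
  refine ⟨b, d, hd0, by linarith, by linarith, ?_, ?_⟩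
  · rw [← tendsto_add_atTop_iff_nat 2]
    refine tP.congr fun k => ?_
    show x (n + 4 + 2 * k) = x (n + 2 * (k + 2))
    congr 1
    ring
  · rw [← tendsto_add_atTop_iff_nat 2]
    refine tQ.congr fun k => ?_
    show x (n + 5 + 2 * k) = x (n + 1 + 2 * (k + 2))
    congr 1
    ring

end Pool.Agent.E8helper67.RR
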